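import Pool.Agent.FQX.StmtP

/-!
# The Tate classes on the powers of abelian varieties over number fields

Let `A` be an abelian variety over a number field `K ⊂ ℂ` such that the monodromy groups `G_ℓ` of
`A` are connected (this holds after a finite extension of `K`; all conditions below refer to this
`K`). Let `E` be the centre of `End⁰(A over ℂ)`, `c` its complex conjugation, `σ` the homomorphisms of
`E` to `ℂ`. We assume that `A` has no simple factors of type III. For each `ℓ` fix an isomorphism of
`ℂ` with an algebraic closure of `ℚ_ℓ` and let `V = V_ℓ(A) ⊗ ℂ`, `g` the Lie algebra of `G_ℓ` with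
coefficients in `ℂ`, and `ψ` the pairing of Weil on `V`. By Faltings `V` is semisimple for `g` and the
commutant of `g` is `End(A) ⊗ ℂ`; so the eigenspace of `E` in `V` for `σ` is a multiple of one
irreducible space `W_σ`, which is symplectic if `σ` is real (types I and II). The irreducible
subspaces of `V` are the images of the matrices `P` with `Irr g P`, and `On R σ P` says that the
image is contained in the eigenspace for `σ`. Let `n σ` be the dimension of `W_σ` and `r σ` the
multiplicity of `σ` in `Lie(A) ⊗ ℂ`, divided by the multiplicity of `W_σ` in the eigenspace, so
`r σ + r (conj σ) = n σ`.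

The theorem says: for all `N` and `j` the Tate classes in `H^{2j}(A^N)(j)`, that is the alternating
forms `f` on `V^N` in `2 j` arguments which are fixed by `g` up to the twist, are the linear
combinations of products of Tate classes of degree two, which are combinations of classes of
divisors (Faltings), and one Weil class; and the classes of divisors suffice for all `N` and `j` if
and only if there is no balanced family of embeddings. If `K` is real, they suffice if and only if
`A` has no factors of type IV. So the conjecture of Tate is true, in all degrees, for all powers of
all abelian varieties over `ℚ` with connected monodromy groups whose simple factors are of the types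
I and II and for which no `n σ` is one of the numbers `16, 32, 64, ...`. There is no other condition
on the dimension. The elements of `V^N` are written as matrices with `N` rows.

## The numerical conditions

* `NumR`: `K = ℚ`, or `K` is real and the condition `NoTensor` holds for all `σ`; and no `n σ` is a
  power of two, except `1, 2, 4, 8` if `σ` is real and `1, 4` and the odd powers of two if `σ` is not
  real; or
* `NumS` for arbitrary `K`: for every `σ`, `n σ = 1`; or `σ` is real and `n σ` is not divisible by
  `4` or is `4`; or all `r σ'`, for the embeddings `σ'` of the factor of `E` to which `σ` belongs,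
  satisfy `0 < r σ' < n σ` and one of them is prime to `n σ`; or
* `Num`, a more general condition for arbitrary `K`: for every `σ`, `n σ = 1` or `CondR` (`σ` real)
  or `CondN` (`σ` not real). `CondR` is also true if `n σ` is not a power of two or a middle
  binomial coefficient and `NoTensor` holds.

`NoTensor` is a condition on the fields `K` and `E` and the numbers `n(σ)`, `r(σ)`. If `E = ℚ` it is
satisfied if `K` contains no totally real field `F ≠ ℚ` such that `n` is a power `m ^ [F : ℚ]`.

## Finitely generated fields

Let `A` be an abelian variety over a finitely generated field `k` of characteristic zero in which `ℚ`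
is algebraically closed, with connected monodromy groups. By a theorem of Serre, based on Hilbert's
irreducibility theorem, the monodromy group of `A` is that of the specialisation `A_s` at many closed
points `s` of a model of `k`; then the Tate classes on the powers of `A` and of `A_s` are the same,
and so are the endomorphisms and the classes of divisors (Faltings). If `k = ℚ(t_1, ..., t_r)` one
can take rational points `s`, so the result for `K = ℚ` holds for `A`. In general one can take `s`
such that the residue field `K` has a large degree over `ℚ` and the Galois group of its Galois closure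
over the compositum of the fields `σ(E)` is the full symmetric group; then `NoTensor` and `NoQuad`
hold for `K`, and `2 r σ = n σ` because the traces of `E` on `Lie(A)` are algebraic elements of `k`, so
the condition `Num` for `K` is the condition on the powers of two.

## The data

The hypotheses are those of `Pool/Agent/Results/MP_6c781a_ag/Reciprocity.lean`, where they are
explained in detail.

* `Φ` is the Frobenius element of a place `v = (π)` of `K` of degree one with good reduction for
  which the Frobenius torus is a maximal torus of `G_ℓ` (Serre: the density of these places is one);
  its eigenvalues have the same absolute value (Weil) and generate a group without torsion. Here `π`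
  is totally positive and `π ≡ 1` modulo a fixed ideal, divisible by high powers of the places of bad
  reduction and of the places over the primes `≤ m`. `E` and `Φ` act on `V_ℓ` with rational traces,
  so they are given by rational matrices in a suitable basis (`Frob`). `tor Φ` is the Lie algebra of
  the Frobenius torus. `m = d!` with `d = 2 dim A`.
* `Mono`: the Lie algebra `g` of `G_ℓ` is reductive, its commutant is `End(A) ⊗ ℂ` (Faltings) with
  the centre `E ⊗ ℂ`; it contains the homotheties (Bogomolov); the torus of `Φ` is maximal.
* `hHT`. Let `γ` be an automorphism of `ℂ` over `K` and `S` a finite set of algebraic numbers. By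
  the theorem of Chebotarev there is a prime `ℓ` and an isomorphism of `ℂ` with an algebraic closure
  of `ℚ_ℓ` such that the place of `K` over `ℓ` given by this isomorphism has degree one and good
  reduction, and an automorphism `τ` over `ℚ_ℓ` which agrees with `γ` on `S`. The decomposition of
  Hodge and Tate (Tate, Sen) gives a conjugacy class of idempotents in `g`, stable under `τ`, and this
  class contains an element `e` of `tor Φ`; the rank of `e` on `W_σ` is `r σ`: `Coch`. Suppose that
  `γ` fixes all conjugates of `K`, the roots of unity of order `m` and all `m`-th roots of all
  conjugates of `π` (`Kum K π m 1 γ`). Then `ℓ` can be chosen such that `K_w = ℚ_ℓ` and `π` is an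
  `m`-th power in `K_w` for all `w ∣ ℓ`. By class field theory for the abelian group
  `G_ℓ(ℚ_ℓ) / im G_ℓ^sc(ℚ_ℓ)` (Deligne) and the principal idele `π` the class of `Φ` in this group is an
  `m`-th power, so its image in `H¹(ℚ_ℓ, π₁(G_ℓ) ⊗ μ_m)` is trivial (Borovoi). Hence there is a point
  `x` of the Frobenius torus with `x ^ m = Φ` and `τ(x) = x ζ ^ q` for an element `q` of the lattice
  generated by the coroots: `Kap`.
* `hCr`. The same for the place `v` itself, where `g` is the Lie algebra of the automorphism group
  `G'` of the crystalline fibre functor of the representations of `G_p` and `Φ` the crystalline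
  Frobenius endomorphism. The Newton cocharacter is in the convex hull of the conjugates of `e`
  (Rapoport–Richartz), and its conjugates under `Aut(ℂ)` span `tor Φ` (Serre): `Spans`. `γ` is in the
  inertia group, with `γ(y) = ζ y` for `y ^ m = π`; `p` is unramified in `K` and `E`. For `p` in a set
  of density one `G_p` is unramified and the image of the Galois group is contained in a hyperspecial
  subgroup of `G_p` (Larsen). So the simple ideals of `g` are stable under `γ`, and `Φ = u μ(p)` for a
  cocharacter `μ` conjugate to `e` and an integral element `u` of a reductive model of `G'` over `ℤ_p`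
  (Fontaine–Laffaille, Wintenberger, Kisin). Hence the image of `Φ` in `H¹(ℚ_p^nr, π₁(G') ⊗ μ_m)` is
  that of `e`, and `γ(x) = x ζ ^ (q + e)` for a point `x` of the torus with `x ^ m = Φ`: `Crys`.

## The idea of the proof

By the reciprocity law for the tensor factors of the monodromy groups (folder `Pool/Agent/FQX`) the
Lie algebra `g` is as large as it can be in view of the endomorphisms, the polarisation and the
traces of the conjugates of `e` (this is the conjecture of Mumford and Tate for `A`): the
idempotents in `g` with multiplier one generate `g`, and `[g, g]` contains all operators which are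
skew for `ψ`, belong to the double commutant and have trace zero on all `W_σ`. The structure of the
Tate classes then follows from the first fundamental theorem of invariant theory for the groups `SL`
and `Sp` (folders `TateOdd`, `GHCFull`). If `K` is real the complex conjugation is an automorphism
over `K`, so `r (conj σ) = r σ = n σ / 2` and every `σ` which is not real is balanced by itself.

The definitions of the statement are in `Pool/Agent/FQV/Base.lean` (`Mono`, `Coch`, `Spans`, `On`,
`Irr`, `Rl`), `Pool/Agent/FQV/StmtT.lean` (Tate and Weil classes) and `Pool/Agent/FQX/Stmt.lean`
(`Frob`, `Kum`, `Kap`, `Crys`, `NumR`, `Num`), `StmtN.lean` (`NumS`).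
-/

set_option autoImplicit false

namespace Pool.Agent.Results.MP_4776b1_ag.AbelianPowers

open Pool.Agent.FQV.Stmt (Mono Coch IsTate products weilProducts Balanced Rl)
open Pool.Agent.FQX.Stmt

/-- The Tate classes on the powers of abelian varieties over number fields: they are combinations of
products of classes of divisors and Weil classes; classes of divisors suffice if and only if there
is no balanced family, and if and only if all homomorphisms `σ` are real if `K` is real. -/
theorem result {ι : Type} [Fintype ι] [DecidableEq ι] {E : Type} [CommRing E] [Algebra ℚ E]
    [Module.Finite ℚ E] [IsReduced E] {R : E →+* Matrix ι ι ℚ} {Φ : Matrix ι ι ℚ} {c : E → E}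
    (H : Frob R Φ) (hc : ∀ (σ : E →+* ℂ) a, σ (c a) = starRingEnd ℂ (σ a))
    {K : Subfield ℂ} [FiniteDimensional ℚ K] {π : K} {m : ℕ}
    (hm : m = (Fintype.card ι).factorial) {ζ : ℂ} (hζ : IsPrimitiveRoot ζ m)
    {n r : (E →+* ℂ) → ℕ}
    (hHT : ∀ γ : ℂ ≃+* ℂ, (∀ x ∈ K, γ x = x) → ∀ S : Finset ℂ, (∀ x ∈ S, IsAlgebraic ℚ x) →
      ∃ τ : ℂ ≃+* ℂ, (∀ x ∈ S, τ x = γ x) ∧
        ∃ (g : Submodule ℂ (Matrix ι ι ℂ)) (ψ e : Matrix ι ι ℂ),
          Mono R c Φ (fun _ => True) g ψ ∧ Coch R Φ r g ψ τ e ∧
            (Kum K π m 1 γ → Kap g Φ m ζ τ 0))
    (hCr : ∃ γ : ℂ ≃+* ℂ, Kum K π m ζ γ ∧ Crys R c Φ (fun _ => True) n r m ζ γ)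
    (hnum : NumR K n r (fun _ => True) ∨ Num K n r (fun _ => True) ∨ NumS n r)
    {g : Submodule ℂ (Matrix ι ι ℂ)} {ψ : Matrix ι ι ℂ} (M : Mono R c Φ (fun _ => True) g ψ) :
    (∀ N j f, IsTate g ψ N j f ↔ f ∈ weilProducts R n r g ψ N j) ∧
      ((∀ N j f, IsTate g ψ N j f → f ∈ products g ψ N j) ↔
        ¬ ∃ (m : ℕ) (s : Fin m → (E →+* ℂ)), 0 < m ∧ Balanced n r m s) ∧
      ((∀ z ∈ K, starRingEnd ℂ z = z) →
        ((∀ N j f, IsTate g ψ N j f → f ∈ products g ψ N j) ↔ ∀ σ : E →+* ℂ, Rl σ)) :=
  Pool.Agent.FQX.tate_x H hc hm hζ hHT hCr hnum M

end Pool.Agent.Results.MP_4776b1_ag.AbelianPowers
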