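import Pool.Agent.FermAll.CM
import Pool.Agent.FermAll.Small

/-!
# The Tate classes on the Fermat varieties in all characteristics

Let `X` be the Fermat variety of degree `m` and dimension `n` over a field of characteristic zero or
of characteristic `p` prime to `m`. Its primitive cohomology is the sum of lines `V(s)`, `s` a
family of `n + 2` nonzero elements of `ZMod m` with sum zero. `V(s)` consists of Tate classes (over
some finite extension of the field) if and only if `s` is in `Pool.Agent.FermAll.IsTate P`, where
`P` is the class of `p`, and `P = 1` in characteristic zero.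

1. For every `m` all Hodge classes are obtained from linear subspaces, Aoki's cycles and the Hodge
   classes of the Fermat varieties of degree `red m`, the product of the primes which divide `m`
   (times `2` if `4 ∣ m`), by joins and removal of pairs (Shioda and Katsura).
2. In the following cases all Tate classes are obtained in this way from linear subspaces, Aoki's
   cycles and divisors on products of two Fermat curves, so all Tate classes are algebraic.
   Case `a`: characteristic zero or `p ≡ 1`, `m = 2 ^ a * 3 ^ b * 5 ^ c`, `2 ^ a * 3 ^ b * 7 ^ c`,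
   `2 * 3 ^ b * 11 ^ c` or `2 * 3 ^ b * 13 ^ c`. Case `b`: `m = n` or `m = 2 n` with `n` odd, and
   for each prime divisor `l` of `n` the number `-1` is a power of `P` modulo the prime-to-`l` part
   of `n`. (This holds for all `P` if `n` is a power of a prime.) Case `c`: all `P`, and
   `m = 3 ^ a * 5 ^ b`, `2 * 3 ^ a * 5 ^ b`, `4 * 3 ^ a`, or `m ≤ 32`, `m = 39, 42, 60`.
3. Let `m` be in `Pool.Agent.FermAll.degrees`. Then all types of complex multiplication by
   the field `ℚ(ζ)` of the `m`-th roots of unity (functions `a` on the Galois group with the values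
   zero and one and `a(t) + a(-t) = 1`) are types of factors of the Jacobian of the Fermat curve; the
   factor with the character `(x, y, z)` has the type `a(t) = ⟨t x / m⟩ + ⟨t y / m⟩ + ⟨t z / m⟩ - 1`.
   So all abelian varieties with complex multiplication by subfields of `ℚ(ζ)`, and their
   reductions, are dominated by products of Fermat curves. The Hodge classes, and the Tate classes
   on the reductions, are given by the families of types in the statement, and are algebraic.
4. The condition `IsTate` in terms of Gauss sums (the eigenvalues of the Frobenius, Weil).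
-/

universe u v w

namespace Pool.Agent.Results.MP_4776b1_ag.FermatAll

open Finset Pool.Agent.FermD Pool.Agent.FermAll

theorem result (m : ℕ) [NeZero m] (P : (ZMod m)ˣ) :
    (∀ s : Multiset (ZMod m), IsTate 1 s ↔ Alg (lifts1 m (red m)) s) ∧
    (CaseA P ∨ CaseB P ∨ CaseC m →
      ∀ s : Multiset (ZMod m), IsTate P s ∧ s.sum = 0 ↔ Alg (curves P) s) ∧
    (m ∈ degrees → ∀ {ι : Type w} [Fintype ι] (a : ι → (ZMod m)ˣ → ℕ),
      (∀ i t, a i t + a i (-t) = 1) →
      ∃ x y z : ι → ZMod m, (∀ i, x i + y i + z i = 0 ∧ ∀ t : (ZMod m)ˣ,
        ((t : ZMod m) * x i).val + ((t : ZMod m) * y i).val + ((t : ZMod m) * z i).val =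
          (a i t + 1) * m) ∧
        ((∃ r : ℕ, Fintype.card ι = 2 * r ∧ ∀ t : (ZMod m)ˣ,
          ∑ i, ∑ j ∈ range (orderOf P), a i (P ^ j * t) = r * orderOf P) ↔
          Alg (curves P) (∑ i, {x i, y i, z i}))) ∧
    (∀ {p : ℕ} (_ : p.Prime) (_ : (p : ZMod m) = P)
      {F : Type u} [Field F] [Fintype F] [CharP F p] {K : Type v} [Field K] [CharZero K]
      (χ : MulChar F K) (_ : orderOf χ = m) {ψ : AddChar F K} (_ : ψ ≠ 1)
      (s : Multiset (ZMod m)),
      IsTate P s ↔ (0 : ZMod m) ∉ s ∧ ∃ r N : ℕ, s.card = 2 * r ∧ 0 < N ∧
        (s.map fun c => gaussSum (χ ^ c.val) ψ).prod ^ N = (Fintype.card F : K) ^ (r * N)) := by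
  refine ⟨fun s => ?_, fun h s => ?_, fun hm ι _ a ha => ?_, ?_⟩
  · rw [lifts1_eq, isTate_one]
    exact hodge_red s
  · rcases h with h | h | h
    · exact tate_case (Or.inl h) s
    · exact tate_case (Or.inr h) s
    · exact tate_small h P s
  · exact cm_curves hm (tate_small (caseC_of_degrees hm) P) a ha
  · intro p hp hpP F _ _ _ K _ _ χ hχ ψ hψ s
    exact tate_gauss hp hpP χ hχ hψ s

end Pool.Agent.Results.MP_4776b1_ag.FermatAll
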