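import Pool.Agent.KThree.BalancedTwo

/-!
# Tate classes on powers of K3 surfaces over finite fields

Let `X` be a K3 surface of finite height `h` over a finite field of characteristic `p`, after a
finite extension of the field. Let `V = H^2(X)(1)` with coefficients in an algebraically closed
field `K` of characteristic zero, and `F` the Frobenius, which is diagonalisable with
characteristic polynomial `(X - 1) ^ a * Q ^ e`: `a` is the Picard number, `Q` is irreducible over
`ℚ` of degree `2 d`, `2 d e = 22 - a`, and over `ℚ_p` the polynomial `Q` has exactly one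
irreducible factor with roots of negative valuation, of degree `f` with `h = e f`
(`IsKThreePoly`). By the Künneth formula the Tate classes on the powers of `X` are sums of
products of classes of `H^0`, `H^4` of the factors and of `F ^ m`-invariant multilinear forms on `V`
(`V` is self-dual). So `PairGenerated F` says that the Tate classes on all powers of `X` come from
`X` and `X × X`. The theorem says that this implies that `p` splits in every imaginary quadratic
subfield of `E = ℚ[X]/(Q)` (`AllSplit`), which is automatic for odd `f`, and that it is equivalent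
to it under one of the following assumptions:
* `f` is odd, `d ≤ 11`, and `(f, d)` is not one of `(3, 6)`, `(3, 9)`, `(3, 10)`, `(5, 10)`,
* `d` is prime,
* the Galois group of the minimal polynomial of `α + 1 / α` (`α` a root of `Q`) is `3`-transitive.
-/

set_option autoImplicit false

namespace Pool.Agent.Results.MP_4776b1_ag.KThreePowers

open Polynomial Pool.Agent.KThree

/-- Every multilinear form invariant by a power of `F` is a linear combination of products of
`F`-invariant linear forms and bilinear forms. -/
def PairGenerated {K V : Type} [Field K] [AddCommGroup V] [Module K V] (F : Module.End K V) :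
    Prop :=
  ∀ (m n : ℕ) (T : MultilinearMap K (fun _ : Fin n => V) K), 0 < m →
    (∀ v : Fin n → V, T (fun i => (F ^ m) (v i)) = T v) →
    T ∈ Submodule.span K {T' : MultilinearMap K (fun _ : Fin n => V) K | IsPairProduct F T'}

/-- **Tate classes on the powers of K3 surfaces over finite fields.** -/
theorem result {p : ℕ} [Fact p.Prime] {f d : ℕ} (Q : ℚ[X]) (hQ : IsKThreePoly Q p f)
    (hneat : Neat Q) (hdeg : Q.natDegree = 2 * d)
    {K V : Type} [Field K] [IsAlgClosed K] [CharZero K] [AddCommGroup V] [Module K V]
    [FiniteDimensional K V] (F : Module.End K V) (hF : ⨆ μ : K, F.eigenspace μ = ⊤) (a e : ℕ)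
    (he : 0 < e) (hchar : F.charpoly = ((X - 1) ^ a * Q ^ e : ℚ[X]).map (algebraMap ℚ K)) :
    (Odd f → AllSplit Q p) ∧ (PairGenerated F → AllSplit Q p) ∧
    ((Odd f ∧ d ≤ 11 ∧ (f, d) ∉ ({(3, 6), (3, 9), (3, 10), (5, 10)} : Set (ℕ × ℕ))) ∨
      d.Prime ∨ TraceThree Q → AllSplit Q p → PairGenerated F) := by
  classical
  have hev : ∀ μ : K, F.HasEigenvalue μ ↔ (a ≠ 0 ∧ μ = 1) ∨ aeval μ Q = 0 := by
    intro μ
    rw [Module.End.hasEigenvalue_iff_isRoot_charpoly, hchar, IsRoot.def, Polynomial.map_mul,
      Polynomial.map_pow, Polynomial.map_pow, Polynomial.map_sub, Polynomial.map_one, map_X,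
      eval_mul, eval_pow, eval_pow, eval_sub, eval_X, eval_one, eval_map_algebraMap, mul_eq_zero,
      pow_eq_zero_iff he.ne', pow_eq_zero_iff', sub_eq_zero, and_comm]
  refine ⟨fun hf => allSplit_of_odd hQ hf, ?_, ?_⟩
  · intro h
    by_contra hcon
    obtain ⟨m, n, T, hm, hT, hT'⟩ := exists_exotic hQ hneat hcon F hF
      fun μ hμ => (hev μ).2 (Or.inr hμ)
    exact hT' (h m n T hm hT)
  · intro hA hs m n T hm hT
    refine mem_span_pairProduct F hF m ?_ ?_ T hT
    · intro M hM hprod μ hμ
      refine balanced_of hQ hneat (fun S hS hc => no_rel hQ hdeg hA hs S hS hc) M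
        (fun ν hν => ?_) hm hprod μ hμ
      rcases (hev ν).1 (hM ν hν) with h | h
      · exact Or.inl h.2
      · exact Or.inr h
    · intro μ hμ h1
      rcases (hev μ).1 hμ with h2 | h2
      · exact absurd h2.2 h1
      · exact (ne_inv hQ hneat h2).2

end Pool.Agent.Results.MP_4776b1_ag.KThreePowers
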